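import Pool.Agent.D0H73.OP.Fin
import Pool.Agent.D0H43.OP.Push
import Pool.Agent.D0H43.OP.Abel
import Pool.Agent.D0H5.OP.Low
import Pool.Agent.D0H35.OP.Step
import Pool.Agent.D0H10.OP.Last
import Pool.Agent.D0H19.OP.Base
import Pool.Agent.D0H45.OP.Dat
import Pool.Agent.D0H51.OP.Riesz
import Pool.Agent.D0H52.OP.Conc
import Pool.Agent.D0H89.OP.Grp
import Pool.Agent.D0H92.OPT.Top
import Pool.Agent.D0H6.OP.Aaf
import Pool.Agent.D0H97.OP.Val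
import Pool.Agent.D0H69.OP.Nm
import Pool.Agent.D0H73.OP.Num
import Pool.Agent.D0H90.OP.Pkg
import Pool.Agent.D0H9.OP.Cmp

/-! Project OP (helper73): the modules together. -/

set_option autoImplicit false

namespace Pool.Agent.D0H81.OP

open Pool.Agent.D0H73.OP


theorem aNUM : S_NUM := Pool.Agent.D0H73.OP.t_NUM
theorem aAAF : S_AAF := Pool.Agent.D0H6.OP.t_AAF
theorem aPKG : S_PKG := Pool.Agent.D0H90.OP.t_PKG Pool.Agent.D0H51.OP.t_RIESZ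
theorem aDAT : S_DAT := Pool.Agent.D0H45.OP.t_DAT aPKG aAAF aNUM
theorem aTOP : S_TOP := Pool.Agent.D0H92.OPT.t_TOP
theorem aVAL : S_VAL := Pool.Agent.D0H97.OP.t_VAL
theorem aNM : S_NM := Pool.Agent.D0H69.OP.t_NM
theorem aLOW : S_LOW := Pool.Agent.D0H5.OP.t_LOW aNUM aAAF aNM aVAL
theorem aCMP : S_CMP := Pool.Agent.D0H9.OP.t_CMP Pool.Agent.D0H52.OP.t_CONC aNUM aAAF aVAL
theorem aSTEP : S_STEP := Pool.Agent.D0H35.OP.t_STEP aTOP aNUM aLOW aCMP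
theorem aBASE : S_BASE := Pool.Agent.D0H19.OP.t_BASE aTOP aNUM aAAF aVAL
theorem aLAST : S_LAST := Pool.Agent.D0H10.OP.t_LAST aTOP aNUM aLOW
theorem aFIN : S_FIN := t_FIN aDAT aBASE aSTEP aLAST
theorem aPUSH : S_PUSH := Pool.Agent.D0H43.OP.t_PUSH aFIN Pool.Agent.D0H89.OP.t_GRP aNUM aAAF
theorem final (G : Type) [Group G] [Infinite G] (n : ℕ) (hn : 1 ≤ n) (hG : ∀ g : G, g ^ n = 1) :
  ¬ IsOpenMap (fun q : lp (fun _ : G => ℂ) 1 × lp (fun _ : G => ℂ) 1 => Pool.Agent.V1192.UOE.conv q.1 q.2) := by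
  intro h
  have ho := openMul_of G h
  have hc := Pool.Agent.D0H43.OP.t_ABEL G n hn hG ho
  exact aPUSH G hc n hn hG ho


end Pool.Agent.D0H81.OP
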